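import Pool.Agent.W769.Iso.Euclid

set_option autoImplicit false

/-!
# MP_850839: unions of `δ`-tubes whose directions form a net: no loss in `δ` for Lipschitz positions

In `ℝ^n`, `n = d + 1 ≥ 3`, let `T i` be `δ`-tubes (length one, radius `δ`) with directions `e i` and
centres `a i`. Suppose that every direction of a spherical cap of radius `ρ` is within `K δ` of one of
the `e i`, and that `|a i - a j| ≤ L (|e i - e j| + K δ)`. Then the union of the tubes has volume at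
least `c ρ^(n-1) K^(-(n-1)) (1 + L)^(-n(n-1))`, with `c > 0` depending only on `n`.
-/

open MeasureTheory Set
open scoped ENNReal InnerProductSpace

namespace Pool.Agent.Results.MP_850839_an.NetFamilies

open Pool.Agent.W769.Iso

variable {d : ℕ}

/-- volume of one tube -/
theorem volume_tube (hd : 1 ≤ d) {δ : ℝ} (hδ : 0 < δ) (hδ1 : δ < 1) {e a : Eu d} (he : ‖e‖ = 1) :
    ENNReal.ofReal ((2 * (δ / d)) ^ d) ≤ ENNReal.ofReal (4 ^ (d + 1)) * volume (tube δ e a) := by
  have hd0 : (0 : ℝ) < d := by exact_mod_cast (show 0 < d by omega)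
  obtain ⟨A, hA⟩ := exists_rot e he
  have hsub : GT (δ / d) (fun _ : Unit => (0 : Fin d → ℝ)) (fun _ => 0) ⊆
      Psi A a ⁻¹' tube δ e a := by
    rintro z ⟨hz0, _, hz⟩
    refine mem_tube A he hd hδ hδ1 (v := 0) (p := 0) (q := 0) (h := 0) (x0 := 1) (by norm_num)
      (by rw [hA, one_smul]) ?_ (by norm_num) (by simp) hz0 (by simpa using hz)
    rw [sub_self, map_zero]
    ext k
    refine Fin.cases ?_ (fun j => ?_) k <;> simp
  rw [← volume_Psi A a (isClosed_tube δ e a).measurableSet]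
  refine le_trans ?_ (measure_mono hsub)
  obtain ⟨_, h2⟩ := volume_eq_slices (GT_closed (δ / d) (fun _ : Unit => (0 : Fin d → ℝ))
    (fun _ => 0)).measurableSet
  rw [h2]
  calc ENNReal.ofReal ((2 * (δ / d)) ^ d)
      = ∫⁻ t in Icc (0 : ℝ) 1, ENNReal.ofReal ((2 * (δ / d)) ^ d) := by
        rw [setLIntegral_const, Real.volume_Icc, sub_zero, ENNReal.ofReal_one, mul_one]
    _ = ∫⁻ t : ℝ, (Icc (0 : ℝ) 1).indicator (fun _ => ENNReal.ofReal ((2 * (δ / d)) ^ d)) t := by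
        rw [lintegral_indicator measurableSet_Icc]
    _ ≤ _ := by
        refine lintegral_mono fun t => ?_
        by_cases ht : t ∈ Icc (0 : ℝ) 1
        · rw [Set.indicator_of_mem ht, GT_slice _ _ _ ht]
          refine le_trans (le_of_eq ?_) (measure_mono (Set.subset_iUnion _ ()))
          rw [Real.volume_pi_closedBall _ (by positivity), Fintype.card_fin]
        · rw [Set.indicator_of_notMem ht]; exact zero_le

/-- the direction coordinates -/
noncomputable def dv (A : Eu d ≃ₗᵢ[ℝ] Eu d) (e : Eu d) : Fin d → ℝ :=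
  fun j => A e j.succ / A e 0

theorem A_eq (A : Eu d ≃ₗᵢ[ℝ] Eu d) {e : Eu d} (h : A e 0 ≠ 0) : A e = A e 0 • mk 1 (dv A e) := by
  ext k
  refine Fin.cases ?_ (fun j => ?_) k
  · simp
  · simp only [PiLp.smul_apply, mk_succ, dv, smul_eq_mul]
    field_simp

/-- quotients of coordinates of unit vectors -/
theorem quot_le {X Y : Eu d} (hY : ‖Y‖ = 1) (hX0 : 49 / 50 ≤ X 0) (hY0 : 49 / 50 ≤ Y 0)
    (k : Fin (d + 1)) : |X k / X 0 - Y k / Y 0| ≤ 3 * ‖X - Y‖ := by
  have h1 : |X k - Y k| ≤ ‖X - Y‖ := by simpa using coord_le (X - Y) k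
  have h2 : |X 0 - Y 0| ≤ ‖X - Y‖ := by simpa using coord_le (X - Y) 0
  have h3 : |Y k| ≤ 1 := (coord_le Y k).trans hY.le
  have h4 : |Y 0| ≤ 1 := (coord_le Y 0).trans hY.le
  have hXp : 0 < X 0 := by linarith
  have hYp : 0 < Y 0 := by linarith
  have h5 : X k / X 0 - Y k / Y 0 = ((X k - Y k) * Y 0 + Y k * (Y 0 - X 0)) / (X 0 * Y 0) := by
    field_simp; ring
  rw [h5, abs_div, abs_of_pos (mul_pos hXp hYp), div_le_iff₀ (mul_pos hXp hYp)]
  have hn : 0 ≤ ‖X - Y‖ := norm_nonneg _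
  have h6 : |(X k - Y k) * Y 0 + Y k * (Y 0 - X 0)| ≤ 2 * ‖X - Y‖ := by
    refine (abs_add_le _ _).trans ?_
    rw [abs_mul, abs_mul, abs_sub_comm (Y 0)]
    have h7 : |X k - Y k| * |Y 0| ≤ ‖X - Y‖ * 1 :=
      mul_le_mul h1 h4 (abs_nonneg _) hn
    have h8 : |Y k| * |X 0 - Y 0| ≤ 1 * ‖X - Y‖ :=
      mul_le_mul h3 h2 (abs_nonneg _) zero_le_one
    linarith
  have h9 : (49 / 50) * (49 / 50) ≤ X 0 * Y 0 := by
    apply mul_le_mul hX0 hY0 (by norm_num) hXp.le
  nlinarith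

theorem dv_sub_le (A : Eu d ≃ₗᵢ[ℝ] Eu d) {e e' : Eu d} (he' : ‖e'‖ = 1)
    (h : 49 / 50 ≤ A e 0) (h' : 49 / 50 ≤ A e' 0) : ‖dv A e - dv A e'‖ ≤ 3 * ‖e - e'‖ := by
  rw [pi_norm_le_iff_of_nonneg (by positivity)]
  intro j
  have h1 := quot_le (X := A e) (Y := A e') (by rw [A.norm_map, he']) h h' j.succ
  rw [← map_sub, A.norm_map] at h1
  simpa [dv, Real.norm_eq_abs] using h1

theorem sub_le_dv (A : Eu d ≃ₗᵢ[ℝ] Eu d) {e e' : Eu d} (he : ‖e‖ = 1) (he' : ‖e'‖ = 1)
    (h : 0 < A e 0) (h' : 0 < A e' 0) : ‖e - e'‖ ≤ 2 * (d * ‖dv A e - dv A e'‖) := by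
  have h1 := norm_unit_sub_le (A_eq A h.ne') (A_eq A h'.ne') h h' (by rw [A.norm_map, he])
    (by rw [A.norm_map, he']) (one_le_norm_mk _)
  rw [← map_sub, A.norm_map, mk_sub, sub_self] at h1
  exact h1.trans (by gcongr; exact norm_mk_zero_le _)

/-- **Main result.** -/
theorem result (d : ℕ) (hd : 2 ≤ d) : ∃ c : ℝ, 0 < c ∧ ∀ (ι : Type) [Fintype ι]
    (e a : ι → EuclideanSpace ℝ (Fin (d + 1))) (e₀ : EuclideanSpace ℝ (Fin (d + 1)))
    (ρ L K δ : ℝ), 0 < ρ → ρ ≤ 1 → 0 ≤ L → 1 ≤ K → 0 < δ → δ < 1 → ‖e₀‖ = 1 → (∀ i, ‖e i‖ = 1) →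
    (∀ u : EuclideanSpace ℝ (Fin (d + 1)), ‖u‖ = 1 → ‖u - e₀‖ ≤ ρ → ∃ i, ‖u - e i‖ ≤ K * δ) →
    (∀ i j, ‖a i - a j‖ ≤ L * (‖e i - e j‖ + K * δ)) →
    ENNReal.ofReal (c * ρ ^ d * (K ^ d)⁻¹ * ((1 + L) ^ (d * (d + 1)))⁻¹) ≤
      volume (⋃ i, {y : EuclideanSpace ℝ (Fin (d + 1)) |
        |⟪y - a i, e i⟫_ℝ| ≤ 1 / 2 ∧ ‖(y - a i) - ⟪y - a i, e i⟫_ℝ • e i‖ ≤ δ}) := by
  obtain ⟨c, hc, hmain⟩ := graph_tubes hd
  have hd0 : (0 : ℝ) < d := by exact_mod_cast (show 0 < d by omega)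
  have hd1 : (1 : ℝ) ≤ d := by exact_mod_cast (show 1 ≤ d by omega)
  set c1 : ℝ := c * ((400 * (d : ℝ)) ^ d)⁻¹ * ((3 * (d : ℝ)) ^ d)⁻¹ * ((16 * (d : ℝ)) ^ (d * d))⁻¹ *
    (4 ^ (d + 1))⁻¹
    with hc1
  set c2 : ℝ := ((100 * (d : ℝ)) ^ d)⁻¹ * (4 ^ (d + 1))⁻¹ with hc2
  have hc1p : 0 < c1 := by positivity
  have hc2p : 0 < c2 := by positivity
  refine ⟨min c1 c2, lt_min hc1p hc2p, ?_⟩
  intro ι _ e a e₀ ρ L K δ hρ hρ1 hL hK hδ hδ1 he₀ he hnet hlip
  set ρ' : ℝ := ρ / (100 * (1 + L)) with hρ'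
  have h1L : 1 ≤ 1 + L := by linarith
  have hρ'0 : 0 < ρ' := by positivity
  have hρ'ρ : ρ' ≤ ρ / 100 := by
    rw [hρ']; gcongr; linarith
  have hρ'L : ρ' * (1 + L) = ρ / 100 := by rw [hρ']; field_simp
  have hKδ : 0 < K * δ := by positivity
  have hKp : 0 < K := by linarith
  -- the union is bounded below by the volume of graph tubes
  change _ ≤ volume (⋃ i, tube δ (e i) (a i))
  by_cases hbig : ρ' / 2 < K * δ
  · -- one tube is enough
    obtain ⟨i, -⟩ := hnet e₀ he₀ (by simp [hρ.le])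
    have h1 := volume_tube (d := d) (by omega) hδ hδ1 (e := e i) (a := a i) (he i)
    have h2 : volume (tube δ (e i) (a i)) ≤ volume (⋃ i, tube δ (e i) (a i)) :=
      measure_mono (subset_iUnion (fun i => tube δ (e i) (a i)) i)
    refine le_trans ?_ h2
    have h4 : (0 : ℝ) < 4 ^ (d + 1) := by positivity
    have h3 : ENNReal.ofReal ((4 ^ (d + 1))⁻¹ * (2 * (δ / d)) ^ d) ≤ volume (tube δ (e i) (a i)) := by
      rw [ENNReal.ofReal_mul (by positivity), ENNReal.ofReal_inv_of_pos h4]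
      calc (ENNReal.ofReal (4 ^ (d + 1)))⁻¹ * ENNReal.ofReal ((2 * (δ / d)) ^ d)
          ≤ (ENNReal.ofReal (4 ^ (d + 1)))⁻¹ * (ENNReal.ofReal (4 ^ (d + 1)) *
            volume (tube δ (e i) (a i))) := by gcongr
        _ = volume (tube δ (e i) (a i)) := by
            rw [← mul_assoc, ENNReal.inv_mul_cancel (by simpa using h4) ENNReal.ofReal_ne_top,
              one_mul]
    refine le_trans (ENNReal.ofReal_le_ofReal ?_) h3
    have h5 : ρ / (100 * (1 + L) * K) / d ≤ 2 * (δ / d) := by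
      have h6 : ρ / (100 * (1 + L) * K) ≤ 2 * δ := by
        have h7 : ρ' < 2 * (K * δ) := by linarith
        rw [hρ', div_lt_iff₀ (by positivity)] at h7
        rw [div_le_iff₀ (by positivity)]
        linarith
      calc ρ / (100 * (1 + L) * K) / d ≤ 2 * δ / d := by gcongr
        _ = _ := by ring
    calc min c1 c2 * ρ ^ d * (K ^ d)⁻¹ * ((1 + L) ^ (d * (d + 1)))⁻¹
        ≤ c2 * ρ ^ d * (K ^ d)⁻¹ * ((1 + L) ^ d)⁻¹ := by
          gcongr
          · exact min_le_right _ _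
          · nlinarith
      _ = (4 ^ (d + 1))⁻¹ * (ρ / (100 * (1 + L) * K) / d) ^ d := by
          rw [hc2]
          simp only [div_pow, mul_pow]
          field_simp
      _ ≤ (4 ^ (d + 1))⁻¹ * (2 * (δ / d)) ^ d := by gcongr
  · push Not at hbig
    obtain ⟨A, hA⟩ := exists_rot e₀ he₀
    -- directions near `e₀`
    have hx0 : ∀ u : Eu d, ‖u - e₀‖ ≤ ρ' → 49 / 50 ≤ A u 0 := by
      intro u hu
      have h1 := coord_le (A u - A e₀) 0
      rw [← map_sub, A.norm_map, map_sub, hA] at h1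
      simp only [PiLp.sub_apply, mk_zero] at h1
      rw [abs_le] at h1
      linarith [h1.1]
    have hdv : ∀ u : Eu d, ‖u - e₀‖ ≤ ρ' → ‖dv A u‖ ≤ 1 := by
      intro u hu2
      have h1 := dv_sub_le A he₀ (hx0 u hu2) (hx0 e₀ (by simpa using hρ'0.le))
      have h2 : dv A e₀ = 0 := by
        funext j; simp [dv, hA]
      rw [h2, sub_zero] at h1
      linarith
    set r : ℝ := ρ' / (4 * d) with hr
    have hr0 : 0 < r := by positivity
    -- the net
    have hE : ∀ w ∈ Metric.closedBall (0 : Fin d → ℝ) r, ∃ i, ‖e i - e₀‖ ≤ ρ' ∧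
        ‖w - dv A (e i)‖ ≤ 3 * (K * δ) := by
      intro w hw
      have hw' : ‖w‖ ≤ r := by simpa using hw
      have hm : 1 ≤ ‖(mk 1 w : Eu d)‖ := one_le_norm_mk w
      have hmp : 0 < ‖(mk 1 w : Eu d)‖ := by linarith
      set u : Eu d := A.symm ((1 / ‖(mk 1 w : Eu d)‖) • mk 1 w) with hu
      have hAu : A u = (1 / ‖(mk 1 w : Eu d)‖) • mk 1 w := by
        rw [hu, LinearIsometryEquiv.apply_symm_apply]
      have hun : ‖u‖ = 1 := by
        rw [← A.norm_map, hAu, norm_smul, Real.norm_of_nonneg (by positivity)]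
        field_simp
      have hu2 : ‖u - e₀‖ ≤ ρ' / 2 := by
        rw [← A.norm_map, map_sub]
        have h1 := norm_unit_sub_le (x := A u) (y := A e₀) (V := mk 1 w) (W := mk 1 0)
          (s := 1 / ‖(mk 1 w : Eu d)‖) (t := 1) hAu (by rw [hA, one_smul]) (by positivity) one_pos
          (by rw [A.norm_map, hun]) (by rw [A.norm_map, he₀]) hm
        rw [mk_sub, sub_self, sub_zero] at h1
        refine h1.trans ?_
        have h2 := norm_mk_zero_le w
        calc 2 * ‖(mk 0 w : Eu d)‖ ≤ 2 * (d * r) := by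
              have : (d : ℝ) * ‖w‖ ≤ d * r := by gcongr
              linarith
          _ = ρ' / 2 := by rw [hr]; field_simp; ring
      obtain ⟨i, hi⟩ := hnet u hun (by linarith)
      have hi2 : ‖e i - e₀‖ ≤ ρ' := by
        calc ‖e i - e₀‖ = ‖(u - e₀) - (u - e i)‖ := by congr 1; abel
          _ ≤ ‖u - e₀‖ + ‖u - e i‖ := norm_sub_le _ _
          _ ≤ _ := by linarith
      refine ⟨i, hi2, ?_⟩
      have h3 : w = dv A u := by
        funext j
        simp only [dv, hAu, PiLp.smul_apply, mk_succ, mk_zero, smul_eq_mul, mul_one]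
        field_simp
      rw [h3]
      refine (dv_sub_le A (he i) (hx0 u (by linarith)) (hx0 _ hi2)).trans ?_
      gcongr
    -- the subfamily
    let I' : Type := {i : ι // ‖e i - e₀‖ ≤ ρ'}
    obtain ⟨i₀, hi₀, -⟩ := hE 0 (by simpa using hr0.le)
    classical
    set c0 : Eu d := a i₀ with hc0
    let v : I' → Fin d → ℝ := fun i => dv A (e i.1)
    let h : I' → ℝ := fun i => A (a i.1 - c0) 0
    let p : I' → Fin d → ℝ := fun i j => A (a i.1 - c0) j.succ
    let q : I' → Fin d → ℝ := fun i => (4 : ℝ) • p i - (1 / 2 + 4 * h i) • v i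
    have hh : ∀ i : I', |h i| ≤ 1 / 25 := by
      intro i
      have h1 := coord_le (A (a i.1 - c0)) 0
      rw [A.norm_map] at h1
      have h2 := hlip i.1 i₀
      have h3 : ‖e i.1 - e i₀‖ ≤ 2 * ρ' := by
        calc ‖e i.1 - e i₀‖ = ‖(e i.1 - e₀) - (e i₀ - e₀)‖ := by congr 1; abel
          _ ≤ ‖e i.1 - e₀‖ + ‖e i₀ - e₀‖ := norm_sub_le _ _
          _ ≤ _ := by linarith [i.2]
      have h4 : L * (‖e i.1 - e i₀‖ + K * δ) ≤ L * (3 * ρ') := by gcongr; linarith
      have h5 : L * (3 * ρ') ≤ 1 / 25 := by nlinarith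
      exact h1.trans (h2.trans (h4.trans h5))
    have hgt : ENNReal.ofReal (c * r ^ d * ((3 * K * d) ^ d)⁻¹ *
        ((1 + (16 * d * L + 1)) ^ (d * d))⁻¹) ≤ volume (GT (δ / d) v q) := by
      refine hmain I' 0 r (16 * d * L + 1) (3 * K * d) (δ / d) v q hr0 (by positivity) ?_
        (by positivity) ?_ ?_
      · nlinarith
      · intro w hw
        obtain ⟨i, hi, hi2⟩ := hE w hw
        refine ⟨⟨i, hi⟩, hi2.trans (le_of_eq ?_)⟩
        field_simp
      · intro i j
        have hp : ‖p i - p j‖ ≤ ‖a i.1 - a j.1‖ := by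
          rw [pi_norm_le_iff_of_nonneg (norm_nonneg _)]
          intro k
          have h1 := coord_le (A (a i.1 - c0) - A (a j.1 - c0)) k.succ
          rw [← map_sub, A.norm_map, sub_sub_sub_cancel_right, ← sub_sub_sub_cancel_right _ _ c0,
            map_sub] at h1
          simpa [p, Real.norm_eq_abs] using h1
        have hhh : |h i - h j| ≤ ‖a i.1 - a j.1‖ := by
          have h1 := coord_le (A (a i.1 - c0) - A (a j.1 - c0)) 0
          rw [← map_sub, A.norm_map, sub_sub_sub_cancel_right, ← sub_sub_sub_cancel_right _ _ c0,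
            map_sub] at h1
          simpa [h] using h1
        have hv1 : ‖v j‖ ≤ 1 := hdv _ j.2
        have hee := sub_le_dv A (he i.1) (he j.1) (by linarith [hx0 _ i.2]) (by linarith [hx0 _ j.2])
        have h1 : q i - q j = (4 : ℝ) • (p i - p j) - (1 / 2 + 4 * h i) • (v i - v j) -
            (4 * (h i - h j)) • v j := by
          simp only [q]
          module
        have h2 : |1 / 2 + 4 * h i| ≤ 1 := by
          have := hh i
          rw [abs_le] at this ⊢
          constructor <;> linarith [this.1, this.2]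
        have h3 := hlip i.1 j.1
        have hvn : 0 ≤ ‖v i - v j‖ := norm_nonneg _
        calc ‖q i - q j‖ ≤ ‖(4 : ℝ) • (p i - p j)‖ + ‖(1 / 2 + 4 * h i) • (v i - v j)‖ +
              ‖(4 * (h i - h j)) • v j‖ := by
              rw [h1]
              exact (norm_sub_le _ _).trans (by gcongr; exact norm_sub_le _ _)
          _ ≤ 4 * ‖a i.1 - a j.1‖ + ‖v i - v j‖ + 4 * ‖a i.1 - a j.1‖ := by
              rw [norm_smul, norm_smul, norm_smul]
              have e1 : ‖(4 : ℝ)‖ * ‖p i - p j‖ ≤ 4 * ‖a i.1 - a j.1‖ := by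
                rw [Real.norm_of_nonneg (by norm_num)]; gcongr
              have e2 : ‖(1 / 2 + 4 * h i)‖ * ‖v i - v j‖ ≤ 1 * ‖v i - v j‖ := by
                rw [Real.norm_eq_abs]; gcongr
              have e3 : ‖4 * (h i - h j)‖ * ‖v j‖ ≤ 4 * ‖a i.1 - a j.1‖ * 1 := by
                rw [norm_mul, Real.norm_of_nonneg (by norm_num : (0:ℝ) ≤ 4), Real.norm_eq_abs]
                gcongr
              linarith
          _ ≤ 8 * (L * (2 * (d * ‖v i - v j‖) + K * δ)) + ‖v i - v j‖ := by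
              have e4 : L * (‖e i.1 - e j.1‖ + K * δ) ≤ L * (2 * (d * ‖v i - v j‖) + K * δ) := by
                gcongr
              linarith
          _ ≤ (16 * d * L + 1) * (‖v i - v j‖ + 3 * K * d * (δ / d)) := by
              have e5 : 3 * K * d * (δ / d) = 3 * (K * δ) := by field_simp
              rw [e5]
              have e6 : 0 ≤ L * (K * δ) := by positivity
              have e7 : L * (K * δ) ≤ d * (L * (K * δ)) := by nlinarith
              nlinarith
    have hsub : GT (δ / d) v q ⊆ Psi A c0 ⁻¹' (⋃ i, tube δ (e i) (a i)) := by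
      rintro z ⟨hz0, i, hz⟩
      refine mem_iUnion.2 ⟨i.1, ?_⟩
      refine mem_tube A (he i.1) (by omega) hδ hδ1 (v := v i) (p := p i) (q := q i) (h := h i)
        (x0 := A (e i.1) 0) (hx0 _ i.2) (A_eq A (by linarith [hx0 _ i.2])) ?_ (hh i) rfl hz0 hz
      ext k
      refine Fin.cases ?_ (fun j => ?_) k <;> simp [h, p]
    have hmeas : MeasurableSet (⋃ i, tube δ (e i) (a i)) :=
      MeasurableSet.iUnion fun i => (isClosed_tube _ _ _).measurableSet
    have h1 := hgt.trans (measure_mono hsub)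
    rw [volume_Psi A c0 hmeas] at h1
    have h4 : (0 : ℝ) < 4 ^ (d + 1) := by positivity
    have h3 : ENNReal.ofReal ((4 ^ (d + 1))⁻¹ * (c * r ^ d * ((3 * K * d) ^ d)⁻¹ *
        ((1 + (16 * d * L + 1)) ^ (d * d))⁻¹)) ≤ volume (⋃ i, tube δ (e i) (a i)) := by
      rw [ENNReal.ofReal_mul (by positivity), ENNReal.ofReal_inv_of_pos h4]
      calc _ ≤ (ENNReal.ofReal (4 ^ (d + 1)))⁻¹ * (ENNReal.ofReal (4 ^ (d + 1)) *
            volume (⋃ i, tube δ (e i) (a i))) := by gcongr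
        _ = volume (⋃ i, tube δ (e i) (a i)) := by
            rw [← mul_assoc, ENNReal.inv_mul_cancel (by simpa using h4) ENNReal.ofReal_ne_top,
              one_mul]
    refine le_trans (ENNReal.ofReal_le_ofReal ?_) h3
    have h5 : 1 + (16 * d * L + 1) ≤ 16 * d * (1 + L) := by nlinarith
    calc min c1 c2 * ρ ^ d * (K ^ d)⁻¹ * ((1 + L) ^ (d * (d + 1)))⁻¹
        ≤ c1 * ρ ^ d * (K ^ d)⁻¹ * ((1 + L) ^ (d * (d + 1)))⁻¹ := by
          gcongr; exact min_le_left _ _
      _ = (4 ^ (d + 1))⁻¹ * (c * r ^ d * ((3 * K * d) ^ d)⁻¹ *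
            ((16 * d * (1 + L)) ^ (d * d))⁻¹) := by
          rw [hc1, hr, hρ', mul_add, mul_one, pow_add]
          simp only [div_pow, mul_pow]
          have : (400 : ℝ) ^ d = 100 ^ d * 4 ^ d := by rw [← mul_pow]; norm_num
          rw [this]
          field_simp
          rw [← pow_add, add_comm d (d * d)]
      _ ≤ _ := by gcongr

end Pool.Agent.Results.MP_850839_an.NetFamilies
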