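import Pool.Agent.Y254.EL.Dual3

set_option autoImplicit false

/-!
# MP_850839: removal of the losses; the tube inequality of the problem (no loss in `δ`, all numbers
of tubes) is equivalent to the Kakeya maximal conjecture (with losses `δ^(-ε)`)

Let `n ≥ 3`.  The tubes are closed cylinders of length one and radius `δ`; their orientations are
`δ`-separated, their positions and their number `N` are arbitrary.

* (equivalence) The following statements are equivalent: the Kakeya maximal conjecture, that is the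
  `L^n` estimate of the Kakeya maximal function with arbitrarily small losses `δ^(-ε)`; the tube
  inequality of the problem, without any loss, for all `q > n/(n-1)`; the tube inequality at the
  critical exponent `q = n/(n-1)` with arbitrarily small losses; the `L^p` estimates of the maximal
  function for all `1 < p < n` with the sharp power `δ^(-(n-p))` of `δ` and no further loss.
* (removal of the loss at every exponent) If the tube inequality holds at one exponent
  `q₀ ≥ n/(n-1)` with arbitrarily small losses, then it holds without loss for all `q > q₀`.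
-/

open MeasureTheory Set Metric
open scoped ENNReal NNReal

namespace Pool.Agent.Results.MP_850839_an.LossRemoval

/-- The space `ℝ^n`. -/
abbrev Rn (n : ℕ) : Type := EuclideanSpace ℝ (Fin n)

/-- The `δ`-tube with centre `a` and direction `e` (a unit vector): the closed cylinder of length
`1` and radius `δ` around the segment with centre `a` and direction `e`. -/
def tube {n : ℕ} (δ : ℝ) (a e : Rn n) : Set (Rn n) :=
  {y | |inner ℝ (y - a) e| ≤ 1 / 2 ∧ ‖(y - a) - (inner ℝ (y - a) e) • e‖ ≤ δ}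

/-- The number of the `δ`-tubes with centres `a i` and directions `e i` that contain `x`. -/
noncomputable def mult {n : ℕ} {ι : Type} [Fintype ι] (δ : ℝ) (a e : ι → Rn n) (x : Rn n) : ℝ :=
  ∑ i, (tube δ (a i) (e i)).indicator (fun _ => (1 : ℝ)) x

/-- **The tube inequality** at the exponent `q`, with the constant `C` and the loss `δ^(-ε)`:
`‖∑ 1_T‖_q ≤ C δ^(-ε) δ^((n-1)/q) N^(1-1/(q(n-1)))` for all finite families of `N` tubes with
`δ`-separated orientations.  For `ε = 0` there is no loss. -/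
def TubeInequality (n : ℕ) (q ε C : ℝ) : Prop :=
  ∀ δ : ℝ, 0 < δ → δ < 1 → ∀ (ι : Type) [Fintype ι] (a e : ι → Rn n), (∀ i, ‖e i‖ = 1) →
    (∀ i j, i ≠ j → δ ≤ ‖e i - e j‖) →
    eLpNorm (mult δ a e) (ENNReal.ofReal q) volume ≤
      ENNReal.ofReal (C * δ ^ (-ε) * δ ^ (((n : ℝ) - 1) / q) *
        (Fintype.card ι : ℝ) ^ (1 - 1 / (q * ((n : ℝ) - 1))))

/-- The Kakeya maximal function: the supremum of the averages of `|f|` over the `δ`-tubes with
direction `e`. -/
noncomputable def kakeyaMax {n : ℕ} (δ : ℝ) (f : Rn n → ℝ) (e : Rn n) : ℝ≥0∞ :=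
  ⨆ a : Rn n, (volume (tube δ a e))⁻¹ * ∫⁻ y in tube δ a e, ‖f y‖ₑ

/-- **The maximal inequality** at the exponent `p`, with the constant `C` and the power `δ^(-ε)`:
`∫ (f*_δ)^p ≤ C δ^(-ε) ∫ |f|^p`, the integral on the left being over the unit sphere with its
surface measure. -/
def MaximalInequality (n : ℕ) (p ε C : ℝ) : Prop :=
  ∀ δ : ℝ, 0 < δ → δ < 1 → ∀ f : Rn n → ℝ, AEMeasurable f volume →
    ∫⁻ e : sphere (0 : Rn n) 1, kakeyaMax δ f e ^ p ∂(volume : Measure (Rn n)).toSphere ≤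
      ENNReal.ofReal (C * δ ^ (-ε)) * ∫⁻ y, ‖f y‖ₑ ^ p

open Pool.Agent.Y254.EL (EuL EuF KM sg euF_of_euL euL_of_KM crit_of_sub)
open Pool.Agent.W46.HM (kmax)
open Pool.Agent.Y244.HM (WeakP StrongP strongP)
open Pool.Agent.Y244.WR (TubeQ weakQ)

theorem norm_iff {n : ℕ} {ι : Type} [Fintype ι] {q : ℝ} (hq : 0 < q) (δ : ℝ) (a e : ι → Rn n)
    {X : ℝ} (hX : 0 ≤ X) :
    eLpNorm (mult δ a e) (ENNReal.ofReal q) volume ≤ ENNReal.ofReal X ↔
      ∫⁻ x, Pool.Agent.Y254.mult (fun i => Pool.Agent.W46.KK.tube δ (a i) (e i)) x ^ q ≤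
        ENNReal.ofReal (X ^ q) := by
  rw [eLpNorm_eq_lintegral_rpow_enorm_toReal (by
    rw [ne_eq, ENNReal.ofReal_eq_zero, not_le]; exact hq) ENNReal.ofReal_ne_top,
    ENNReal.toReal_ofReal hq.le]
  have e3 : ∀ x, ‖mult δ a e x‖ₑ =
      Pool.Agent.Y254.mult (fun i => Pool.Agent.W46.KK.tube δ (a i) (e i)) x := by
    intro x
    unfold mult
    rw [Real.enorm_of_nonneg (Finset.sum_nonneg fun i _ =>
      Set.indicator_nonneg (fun _ _ => zero_le_one) _),
      ENNReal.ofReal_sum_of_nonneg fun i _ => Set.indicator_nonneg (fun _ _ => zero_le_one) _]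
    unfold Pool.Agent.Y254.mult
    refine Finset.sum_congr rfl fun i _ => ?_
    by_cases hx : x ∈ tube δ (a i) (e i)
    · have hx' : x ∈ Pool.Agent.W46.KK.tube δ (a i) (e i) := hx
      rw [Set.indicator_of_mem hx, Set.indicator_of_mem hx', ENNReal.ofReal_one]
      rfl
    · have hx' : x ∉ Pool.Agent.W46.KK.tube δ (a i) (e i) := hx
      rw [Set.indicator_of_notMem hx, Set.indicator_of_notMem hx', ENNReal.ofReal_zero]
  simp only [e3]
  rw [one_div, ENNReal.rpow_inv_le_iff hq, ENNReal.ofReal_rpow_of_nonneg hX hq.le]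

theorem pow_form {d : ℕ} (hd : 1 ≤ d) {q : ℝ} (hq : 0 < q) {ε C δ N : ℝ} (hC : 0 ≤ C) (hδ : 0 < δ)
    (hN : 0 ≤ N) :
    (C * δ ^ (-ε) * δ ^ ((((d + 1 : ℕ) : ℝ) - 1) / q) * N ^ (1 - 1 / (q * (((d + 1 : ℕ) : ℝ) - 1)))) ^ q
      = C ^ q * (δ ^ (-(ε * q)) * (δ ^ d * N ^ (q - 1 / (d : ℝ)))) := by
  have hd0 : (0 : ℝ) < d := by exact_mod_cast hd
  have e1 : (((d + 1 : ℕ) : ℝ) - 1) = d := by push_cast; ring
  rw [e1, Real.mul_rpow (by positivity) (by positivity), Real.mul_rpow (by positivity)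
    (by positivity), Real.mul_rpow hC (by positivity), ← Real.rpow_mul hδ.le, ← Real.rpow_mul hδ.le,
    ← Real.rpow_mul hN]
  have e2 : (d : ℝ) / q * q = d := by field_simp
  have e3 : (1 - 1 / (q * (d : ℝ))) * q = q - 1 / (d : ℝ) := by field_simp
  have e4 : -ε * q = -(ε * q) := by ring
  rw [e2, e3, e4, Real.rpow_natCast]
  ring

theorem euL_of_tube {d : ℕ} (hd : 1 ≤ d) {q ε C : ℝ} (hq : 0 < q) (hC : 0 ≤ C)
    (h : TubeInequality (d + 1) q ε C) : EuL d q (ε * q) (C ^ q) := by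
  intro δ hδ hδ1 ι _ a e he hsep
  have h1 := (norm_iff hq δ a e (by positivity)).1 (h δ hδ hδ1 ι a e he hsep)
  rwa [pow_form hd hq hC hδ (by positivity)] at h1

theorem tube_of_euL {d : ℕ} (hd : 1 ≤ d) {q ε C : ℝ} (hq : 0 < q) (hC : 0 ≤ C)
    (h : EuL d q ε C) : TubeInequality (d + 1) q (ε / q) (C ^ (1 / q)) := by
  intro δ hδ hδ1 ι _ a e he hsep
  refine (norm_iff hq δ a e (by positivity)).2 ((h δ hδ hδ1 ι a e he hsep).trans (le_of_eq ?_))
  rw [pow_form hd hq (by positivity) hδ (by positivity), ← Real.rpow_mul hC]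
  congr 2
  · field_simp
    simp
  · congr 2
    field_simp

theorem tube_of_euF {d : ℕ} (hd : 1 ≤ d) {q C : ℝ} (hq : 0 < q) (hC : 0 < C)
    (h : EuF d q C) : ∃ C' : ℝ, 0 < C' ∧ TubeInequality (d + 1) q 0 C' := by
  refine ⟨C ^ (1 / q), by positivity, ?_⟩
  have h1 : EuL d q 0 C := by
    intro δ hδ hδ1 ι _ a e he hsep
    have h2 := h δ hδ hδ1 ι a e he hsep
    rwa [neg_zero, Real.rpow_zero, one_mul]
  have h3 := tube_of_euL hd hq hC.le h1
  rwa [zero_div] at h3

theorem euF_of_tube {d : ℕ} (hd : 1 ≤ d) {q C : ℝ} (hq : 0 < q) (hC : 0 ≤ C)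
    (h : TubeInequality (d + 1) q 0 C) : EuF d q (C ^ q) := by
  intro δ hδ hδ1 ι _ a e he hsep
  have h1 := euL_of_tube hd hq hC h δ hδ hδ1 ι a e he hsep
  rwa [zero_mul, neg_zero, Real.rpow_zero, one_mul] at h1

theorem kakeyaMax_eq {n : ℕ} (δ : ℝ) (f : Rn n → ℝ) (e : Rn n) :
    kakeyaMax δ f e = kmax δ (fun y => ‖f y‖ₑ) e := rfl

theorem kmax_toReal {n : ℕ} (δ : ℝ) (f : Rn n → ℝ≥0∞) (hf : ∀ x, f x ≠ ∞) (e : Rn n) :
    kakeyaMax δ (fun y => (f y).toReal) e = kmax δ f e := by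
  rw [kakeyaMax_eq]
  congr 1
  funext y
  rw [Real.enorm_of_nonneg ENNReal.toReal_nonneg, ENNReal.ofReal_toReal (hf y)]

/-- Removal of the loss at every exponent. -/
theorem removal {d : ℕ} (hd : 2 ≤ d) {q0 q : ℝ} (hq0 : 1 + 1 / (d : ℝ) ≤ q0) (hq : q0 < q)
    (h : ∀ ε : ℝ, 0 < ε → ∃ C : ℝ, 0 < C ∧ TubeInequality (d + 1) q0 ε C) :
    ∃ C : ℝ, 0 < C ∧ TubeInequality (d + 1) q 0 C := by
  have hd0 : (0 : ℝ) < 1 / (d : ℝ) := by positivity
  have hq00 : 0 < q0 := by linarith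
  obtain ⟨C, hC, hF⟩ := euF_of_euL hd hq0 hq (fun ε hε => by
    obtain ⟨C, hC, h1⟩ := h (ε / q0) (by positivity)
    refine ⟨C ^ q0, by positivity, ?_⟩
    have h2 := euL_of_tube (by omega) hq00 hC.le h1
    rwa [div_mul_cancel₀ _ hq00.ne'] at h2)
  exact tube_of_euF (by omega) (by linarith) hC hF

/-- **Equivalence of the Kakeya maximal conjecture and of the tube inequality of the problem, and
removal of the losses at every exponent.** -/
theorem result (n : ℕ) (hn : 3 ≤ n) :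
    List.TFAE [
      ∀ ε : ℝ, 0 < ε → ∃ C : ℝ, 0 < C ∧ MaximalInequality n n ε C,
      ∀ ε : ℝ, 0 < ε → ∃ C : ℝ, 0 < C ∧ TubeInequality n ((n : ℝ) / ((n : ℝ) - 1)) ε C,
      ∀ q : ℝ, (n : ℝ) / ((n : ℝ) - 1) < q → ∃ C : ℝ, 0 < C ∧ TubeInequality n q 0 C,
      ∀ p : ℝ, 1 < p → p < n → ∃ C : ℝ, 0 < C ∧ MaximalInequality n p ((n : ℝ) - p) C] ∧
    ∀ q₀ q : ℝ, (n : ℝ) / ((n : ℝ) - 1) ≤ q₀ → q₀ < q →
      (∀ ε : ℝ, 0 < ε → ∃ C : ℝ, 0 < C ∧ TubeInequality n q₀ ε C) →
      ∃ C : ℝ, 0 < C ∧ TubeInequality n q 0 C := by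
  obtain ⟨d, rfl⟩ : ∃ d, n = d + 1 := ⟨n - 1, by omega⟩
  have hd : 2 ≤ d := by omega
  have hdr : (2 : ℝ) ≤ d := by exact_mod_cast hd
  have hd0 : (0 : ℝ) < d := by linarith
  have e1 : (((d + 1 : ℕ) : ℝ) - 1) = d := by push_cast; ring
  have e0 : ((d + 1 : ℕ) : ℝ) = (d : ℝ) + 1 := by push_cast; ring
  have eq0 : ((d + 1 : ℕ) : ℝ) / (((d + 1 : ℕ) : ℝ) - 1) = 1 + 1 / (d : ℝ) := by
    rw [e1, e0]; field_simp
  have hcr : (0 : ℝ) < 1 + 1 / (d : ℝ) := by positivity
  refine ⟨?_, ?_⟩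
  · tfae_have 1 → 2 := by
      intro h ε hε
      rw [eq0]
      have hKM : ∀ ε : ℝ, 0 < ε → ∃ C : ℝ, 0 ≤ C ∧ KM d ε C := by
        intro ε hε
        obtain ⟨C, hC, h1⟩ := h ε hε
        refine ⟨C, hC.le, ?_⟩
        intro δ hδ hδ1 f hf hft
        have h2 := h1 δ hδ hδ1 (fun y => (f y).toReal) hf.ennreal_toReal.aemeasurable
        simp only [kmax_toReal δ f hft, e0] at h2
        refine h2.trans (le_of_eq ?_)
        congr 1
        refine lintegral_congr fun y => ?_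
        rw [Real.enorm_of_nonneg ENNReal.toReal_nonneg, ENNReal.ofReal_toReal (hft y)]
      obtain ⟨C, hC, h2⟩ := euL_of_KM (by omega) hKM (ε * (1 + 1 / (d : ℝ))) (by positivity)
      have h3 := tube_of_euL (by omega) hcr hC h2
      rw [mul_div_cancel_right₀ _ hcr.ne'] at h3
      refine ⟨C ^ (1 / (1 + 1 / (d : ℝ))) + 1, by positivity, ?_⟩
      intro δ hδ hδ1 ι _ a e he hsep
      refine (h3 δ hδ hδ1 ι a e he hsep).trans (ENNReal.ofReal_le_ofReal ?_)
      gcongr
      linarith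
    tfae_have 2 → 3 := by
      intro h q hq
      rw [eq0] at h hq
      exact removal hd le_rfl hq h
    tfae_have 3 → 4 := by
      intro h p hp hpn
      rw [eq0] at h
      rw [e0] at hpn
      set c : ℝ := d / (p - 1) with hc
      have hp1 : 0 < p - 1 := by linarith
      have hc1 : 1 < c := by rw [hc, lt_div_iff₀ hp1]; linarith
      have hpc : 1 + (d : ℝ) / c = p := by rw [hc]; field_simp; ring
      obtain ⟨C, hC, h1⟩ := h (1 + c / d) (by gcongr)
      have h2 := euF_of_tube (by omega) (by positivity) hC.le h1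
      have hT : TubeQ d (1 + c / d) := by
        refine ⟨C ^ (1 + c / (d : ℝ)), by positivity, ?_⟩
        intro δ hδ hδ1 ι _ a e he hsep
        have h3 := h2 δ hδ hδ1 ι a e he hsep
        have e5 : C ^ (1 + c / (d : ℝ)) * δ ^ (d : ℝ) *
            (Fintype.card ι : ℝ) ^ (1 + c / (d : ℝ) - 1 / (d : ℝ)) =
            C ^ (1 + c / (d : ℝ)) *
              (δ ^ d * (Fintype.card ι : ℝ) ^ (1 + c / (d : ℝ) - 1 / (d : ℝ))) := by
          rw [Real.rpow_natCast]; ring
        rw [e5]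
        exact h3
      have h4 := weakQ (by omega) (by linarith) hT Pool.Agent.W131.HM.CAP Pool.Agent.W131.HM.VOL
      obtain ⟨C', hC', h5⟩ := strongP (by omega) hc1 h4
      refine ⟨C', hC', ?_⟩
      intro δ hδ hδ1 f hf
      have h6 := h5 δ hδ hδ1 (fun y => ‖f y‖ₑ) hf.enorm
      have e7 : (d : ℝ) - (d : ℝ) / c = (((d + 1 : ℕ) : ℝ)) - p := by
        rw [e0, ← hpc]; ring
      rw [hpc, e7] at h6
      exact h6
    tfae_have 4 → 1 := by
      intro h ε hε
      set η : ℝ := min ε (1 / 2) with hη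
      have hη0 : 0 < η := lt_min hε (by norm_num)
      have hη1 : η ≤ ε := min_le_left _ _
      have hη2 : η ≤ 1 / 2 := min_le_right _ _
      obtain ⟨C, hC, h1⟩ := h (((d + 1 : ℕ) : ℝ) - η) (by rw [e0]; linarith) (by linarith)
      refine ⟨C, hC, ?_⟩
      set c : ℝ := d / (d - η) with hc
      have hdη : 0 < (d : ℝ) - η := by linarith
      have hc1 : 1 < c := by rw [hc, lt_div_iff₀ hdη]; linarith
      have hpc : 1 + (d : ℝ) / c = (((d + 1 : ℕ) : ℝ)) - η := by
        rw [hc, e0]; field_simp; ring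
      have hpow : (d : ℝ) - (d : ℝ) / c = η := by
        have : (d : ℝ) / c = (((d + 1 : ℕ) : ℝ)) - η - 1 := by linarith
        rw [this, e0]; ring
      intro δ hδ hδ1 f hf
      have h2 := crit_of_sub (d := d) hc1 (by omega) (C := C) hδ hδ1 (fun g hg hgt => by
        have h3 := h1 δ hδ hδ1 (fun y => (g y).toReal) hg.ennreal_toReal
        simp only [kmax_toReal δ g hgt] at h3
        rw [hpc, hpow]
        have e8 : -((((d + 1 : ℕ) : ℝ)) - ((((d + 1 : ℕ) : ℝ)) - η)) = -η := by ring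
        rw [e8] at h3
        refine h3.trans (le_of_eq ?_)
        congr 1
        refine lintegral_congr fun y => ?_
        rw [Real.enorm_of_nonneg ENNReal.toReal_nonneg, ENNReal.ofReal_toReal (hgt y)])
        (fun y => ‖f y‖ₑ) hf.enorm (fun y => enorm_ne_top)
      rw [hpow] at h2
      simp only [e0]
      refine h2.trans ?_
      gcongr ENNReal.ofReal (C * ?_) * _
      exact Real.rpow_le_rpow_of_exponent_ge hδ hδ1.le (by linarith)
    tfae_finish
  · intro q₀ q hq₀ hq h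
    rw [eq0] at hq₀
    exact removal hd hq₀ hq h

end Pool.Agent.Results.MP_850839_an.LossRemoval
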