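import Pool.Agent.Q184.RM.Perm

/-!
# The Kakeya inequality for `δ`-tubes for almost all matchings of positions with orientations

Let `n ≥ 3`.  Take ARBITRARY `δ`-separated orientations `e i` and an ARBITRARY list of as many
positions `b i`, and match them.  For every `q₀ > n/(n-1)` the inequality of the problem holds, for
all `q` in `[q₀, ∞]` at once, without any loss in `δ` and with the conjectured dependence on the
number `N` of the tubes, for all the `N!` matchings except for a proportion `exp(-c N^(1 - 2/n))`.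

More generally it holds with large probability for random positions which are only pairwise nearly
independent, with an arbitrary law; for instance for a random member of a small family of matchings
(such as the `N²` affine ones, if positions and orientations are indexed by a finite field).
-/

set_option autoImplicit false

open MeasureTheory Set
open scoped ENNReal

namespace Pool.Agent.Results.MP_850839_an.RandomMatchings

/-- The space `ℝ^n`. -/
abbrev Rn (n : ℕ) : Type := EuclideanSpace ℝ (Fin n)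

/-- The `δ`-tube with centre `a` and direction `e` (a unit vector): the closed cylinder of length
`1` and radius `δ` around the segment with centre `a` and direction `e`. -/
def tube {n : ℕ} (δ : ℝ) (a e : Rn n) : Set (Rn n) :=
  {y | |inner ℝ (y - a) e| ≤ 1 / 2 ∧ ‖(y - a) - (inner ℝ (y - a) e) • e‖ ≤ δ}

/-- The number of the `δ`-tubes with centres `a i` and directions `e i` that contain `x`. -/
noncomputable def mult {n : ℕ} {ι : Type} [Fintype ι] (δ : ℝ) (a e : ι → Rn n) (x : Rn n) : ℝ :=
  ∑ i, (tube δ (a i) (e i)).indicator (fun _ => (1 : ℝ)) x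

/-- `0 < δ < 1` and `e` is a `δ`-separated family of unit vectors. -/
def Separated {n : ℕ} {ι : Type} (δ : ℝ) (e : ι → Rn n) : Prop :=
  0 < δ ∧ δ < 1 ∧ (∀ i, ‖e i‖ = 1) ∧ ∀ i j, i ≠ j → δ ≤ ‖e i - e j‖

/-- The right-hand side `δ^((n-1)/q) N^(1-1/(q(n-1)))` of the conjectured inequality for `N` tubes,
without the constant, for `q` in `(1, ∞]` (it is `N` for `q = ∞`). -/
noncomputable def rhs (n : ℕ) (q : ℝ≥0∞) (δ : ℝ) (N : ℕ) : ℝ :=
  δ ^ (((n : ℝ) - 1) * (q⁻¹).toReal) * (N : ℝ) ^ (1 - (q⁻¹).toReal / ((n : ℝ) - 1))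

/-- **The conjectured inequality with the constant `C` for all `q` in `[q₀, ∞]`**, for the `δ`-tubes
with centres `a i` and directions `e i`. -/
def KakeyaFrom {n : ℕ} {ι : Type} [Fintype ι] (q₀ C δ : ℝ) (a e : ι → Rn n) : Prop :=
  ∀ q : ℝ≥0∞, ENNReal.ofReal q₀ ≤ q →
    eLpNorm (mult δ a e) q volume ≤ ENNReal.ofReal (C * rhs n q δ (Fintype.card ι))

/-- The random positions `a x i` are **pairwise nearly independent**: one of them is in a measurable
set `U` with probability at most `A ν(U)`, and two of them are in `U` and in `V` with probability at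
most `A ν(U) ν(V)`. -/
def NearlyIndependent {n : ℕ} {ι Ω : Type} [MeasurableSpace Ω] (P : Measure Ω)
    (ν : Measure (Rn n)) (A : ℝ) (a : Ω → ι → Rn n) : Prop :=
  (∀ i, Measurable (fun x => a x i)) ∧
  (∀ i (U : Set (Rn n)), MeasurableSet U → P {x | a x i ∈ U} ≤ ENNReal.ofReal A * ν U) ∧
  (∀ i j, i ≠ j → ∀ U V : Set (Rn n), MeasurableSet U → MeasurableSet V →
    P {x | a x i ∈ U ∧ a x j ∈ V} ≤ ENNReal.ofReal A * (ν U * ν V))

/-- A finite family `Γ` of assignments of the places `κ` to the indices `ι` in which no value and no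
pair of values is more than `A` times as frequent as for a uniform choice. -/
def Balanced {ι κ Γ : Type} [Fintype κ] [Fintype Γ] (A : ℝ) (π : Γ → ι → κ) : Prop :=
  (∀ i k, (Nat.card {γ // π γ i = k} : ℝ) * Nat.card κ ≤ A * Nat.card Γ) ∧
  ∀ i j, i ≠ j → ∀ k l, (Nat.card {γ // π γ i = k ∧ π γ j = l} : ℝ) * (Nat.card κ) ^ 2 ≤
    A * Nat.card Γ

/-- **The Kakeya tube inequality for almost all matchings of positions with orientations.** -/
theorem result (n : ℕ) (hn : 3 ≤ n) (q₀ : ℝ) (hq₀ : (n : ℝ) / ((n : ℝ) - 1) < q₀) :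
    -- (1) all matchings: the bad ones are exponentially rare
    (∃ C c : ℝ, 1 ≤ C ∧ 0 < c ∧ ∀ (ι : Type) [Fintype ι] (e : ι → Rn n) (δ : ℝ), Separated δ e →
      ∀ b : ι → Rn n, (Nat.card {τ : Equiv.Perm ι // ¬ KakeyaFrom q₀ C δ (fun i => b (τ i)) e} : ℝ) ≤
        Nat.card (Equiv.Perm ι) * Real.exp (-(c * (Fintype.card ι : ℝ) ^ (1 - 2 / (n : ℝ))))) ∧
    (∃ C : ℝ, 1 ≤ C ∧
      -- (2) pairwise nearly independent random positions, of arbitrary law
      (∀ (Ω : Type) [MeasurableSpace Ω] (P : Measure Ω) [IsProbabilityMeasure P]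
        (ν : Measure (Rn n)) [IsProbabilityMeasure ν] (A : ℝ), 1 ≤ A →
        ∀ (ι : Type) [Fintype ι] (a : Ω → ι → Rn n), NearlyIndependent P ν A a →
        ∀ (e : ι → Rn n) (δ : ℝ), Separated δ e → ∀ η : ℝ, 0 < η → η ≤ 1 →
          P {x | ¬ KakeyaFrom q₀ (C * A / η) δ (a x) e} ≤ ENNReal.ofReal η) ∧
      -- (3) balanced finite families of assignments of arbitrary places to the orientations
      (∀ (ι κ Γ : Type) [Fintype ι] [Fintype κ] [Nonempty κ] [Fintype Γ] [Nonempty Γ] (A : ℝ),
        1 ≤ A → ∀ π : Γ → ι → κ, Balanced A π → ∀ (e : ι → Rn n) (δ : ℝ), Separated δ e →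
        ∀ (b : κ → Rn n) (η : ℝ), 0 < η → η ≤ 1 →
          (Nat.card {γ // ¬ KakeyaFrom q₀ (C * A / η) δ (fun i => b (π γ i)) e} : ℝ) ≤
            η * Nat.card Γ) ∧
      -- (4) in particular the affine matchings
      (∀ (F : Type) [Field F] [Fintype F] (e : F → Rn n) (δ : ℝ), Separated δ e →
        ∀ (b : F → Rn n) (η : ℝ), 0 < η → η ≤ 1 →
          (Nat.card {z : F × F // ¬ KakeyaFrom q₀ (C / η) δ (fun x => b (z.1 * x + z.2)) e} : ℝ) ≤
            η * Nat.card (F × F))) := by
  refine ⟨?_, ?_⟩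
  · obtain ⟨C, c, hC, hc, h⟩ := Pool.Agent.Q184.RM.rare hn hq₀
    exact ⟨C, c, hC, hc, fun ι _ e δ hs b => h ι e δ hs b⟩
  · obtain ⟨C, hC, h⟩ := Pool.Agent.Q184.RM.most hn hq₀
    have h2 : ∀ (Ω : Type) [MeasurableSpace Ω] (P : Measure Ω) [IsProbabilityMeasure P]
        (ν : Measure (Rn n)) [IsProbabilityMeasure ν] (A : ℝ), 1 ≤ A →
        ∀ (ι : Type) [Fintype ι] (a : Ω → ι → Rn n),
        Pool.Agent.Y789.KM.Pairwise' P ν (ENNReal.ofReal A) a →
        ∀ (e : ι → Rn n) (δ : ℝ), Separated δ e → ∀ η : ℝ, 0 < η → η ≤ 1 →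
          P {x | ¬ KakeyaFrom q₀ (C * A / η) δ (a x) e} ≤ ENNReal.ofReal η := by
      intro Ω _ P _ ν _ A hA ι _ a ha e δ hs η hη hη1
      exact h Ω P ν A hA ι a ha e δ hs η hη hη1
    refine ⟨C, hC, ?_, ?_, ?_⟩
    · intro Ω _ P _ ν _ A hA ι _ a ha e δ hs η hη hη1
      exact h2 Ω P ν A hA ι a ⟨ha.1, ha.2.1, ha.2.2⟩ e δ hs η hη hη1
    · intro ι κ Γ _ _ _ _ _ A hA π hπ e δ hs b η hη hη1
      let _ : MeasurableSpace κ := ⊤
      let _ : MeasurableSpace Γ := ⊤
      have _ : MeasurableSingletonClass κ := ⟨fun _ => trivial⟩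
      have _ : MeasurableSingletonClass Γ := ⟨fun _ => trivial⟩
      have _ : IsProbabilityMeasure ((Pool.Agent.Y789.KM.unif κ).map b) :=
        Measure.isProbabilityMeasure_map measurable_from_top.aemeasurable
      have h3 := (Pool.Agent.Y789.KM.pairwise_of_count (by linarith) π hπ.1 hπ.2).map (b := b)
        measurable_from_top
      exact Pool.Agent.Y789.KM.card_bad hη.le (h2 Γ _ _ A hA ι _ h3 e δ hs η hη hη1)
    · intro F _ _ e δ hs b η hη hη1
      let _ : MeasurableSpace F := ⊤
      have _ : MeasurableSingletonClass F := ⟨fun _ => trivial⟩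
      have _ : IsProbabilityMeasure ((Pool.Agent.Y789.KM.unif F).map b) :=
        Measure.isProbabilityMeasure_map measurable_from_top.aemeasurable
      have h3 := (Pool.Agent.Y789.KM.affine_pairwise (F := F) (fun x : F => x)
        (fun _ _ h => h)).map (b := b) measurable_from_top
      have h4 := h2 (F × F) _ _ 1 le_rfl F _ h3 e δ hs η hη hη1
      rw [mul_one] at h4
      exact Pool.Agent.Y789.KM.card_bad hη.le h4

end Pool.Agent.Results.MP_850839_an.RandomMatchings
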