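import Pool.Agent.Q184.SF.Main
import Pool.Agent.H742R2.Kk.Sphere

set_option autoImplicit false

/-!
# MP_850839: families of `δ`-tubes whose positions are a Sobolev function of the direction

In `ℝ^n`, `n ≥ 3`, consider a finite family `T i` of `δ`-tubes (length one, radius `δ`) with
`δ`-separated orientations `e i` and centres `a i` such that
`|a i - a j| ≤ (g i + g j) |e i - e j|` with weights `g i` of size `G` in weak `L^p`, `0 < p < ∞`:
at most `δ^(1-n) (G / l)^p` of the weights are larger than `l`, for every `l > 0`.  This is the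
definition of the Sobolev classes by Hajłasz (the tubes with a large weight may be placed
arbitrarily); no hypothesis is made on the number of the tubes or on their overlap.  Let
`N = ∑ 1_{T i}` be the multiplicity function and
`X = (1 + G)^(2n²-1) (1 + log (1/δ))^(1 - κ)`,  `κ = p / ((n² + (n-1)²) (p + 2n² - 1))`.

* (entropy) `∫ N log⁺ N ≤ C X` with `C = C(n)`.  The trivial bound is `C (1 + log (1/δ))`.
* (sets) If `∑ |T i ∩ E| ≥ γ`, then `|E| ≥ exp (-(C/γ) X)`.
* (unions) The union of any `γ δ^(1-n)` tubes of the family has volume at least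
  `exp (-(C/γ) X)`; the loss is smaller than every power of `δ`.

For Lipschitz families (`g` constant, `p = ∞`) this is due to W769; the proof splits the family
into a Lipschitz part with a large constant and a small part, for which the trivial bound is used.
-/

open MeasureTheory Set
open scoped ENNReal InnerProductSpace

namespace Pool.Agent.Results.MP_850839_an.SobolevFamilies

/-- The `δ`-tube in `ℝ^n` of length one and radius `δ` with centre `a` and axis parallel to `e`. -/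
def tube {n : ℕ} (δ : ℝ) (e a : EuclideanSpace ℝ (Fin n)) : Set (EuclideanSpace ℝ (Fin n)) :=
  {y | |⟪y - a, e⟫_ℝ| ≤ 1 / 2 ∧ ‖(y - a) - ⟪y - a, e⟫_ℝ • e‖ ≤ δ}

/-- The sum of the indicator functions of the tubes of a family. -/
noncomputable def mult {n : ℕ} {ι : Type} [Fintype ι] (δ : ℝ)
    (e a : ι → EuclideanSpace ℝ (Fin n)) (y : EuclideanSpace ℝ (Fin n)) : ℝ :=
  ∑ i, (tube δ (e i) (a i)).indicator (fun _ => (1 : ℝ)) y

/-- `κ = p / ((n² + (n-1)²) (p + 2n² - 1))` -/
noncomputable def kappa (n : ℕ) (p : ℝ) : ℝ :=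
  p / (((n : ℝ) ^ 2 + ((n : ℝ) - 1) ^ 2) * (p + 2 * (n : ℝ) ^ 2 - 1))

/-- `X = (1 + G)^(2n²-1) (1 + log (1/δ))^(1 - κ)` -/
noncomputable def loss (n : ℕ) (p G δ : ℝ) : ℝ :=
  (1 + G) ^ (2 * n ^ 2 - 1) * (1 + Real.log (1 / δ)) ^ (1 - kappa n p)

/-- The tubes with orientations `e i` and centres `a i` form a Sobolev family: there are weights
`g i` with `|a i - a j| ≤ (g i + g j) |e i - e j|`, at most `δ^(1-n) (G / l)^p` of which are larger
than `l`, for every `l > 0`. -/
def Sobolev {n : ℕ} {ι : Type} [Fintype ι] (p G δ : ℝ) (e a : ι → EuclideanSpace ℝ (Fin n)) : Prop :=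
  ∃ g : ι → ℝ, (∀ i j, ‖a i - a j‖ ≤ (g i + g j) * ‖e i - e j‖) ∧
    ∀ l : ℝ, 0 < l → δ ^ (n - 1) * (Nat.card {i // l < g i} : ℝ) ≤ (G / l) ^ p

theorem loss_eq (d : ℕ) (p G δ : ℝ) : loss (d + 1) p G δ = (1 + G) ^ (2 * d * (d + 2) + 1) *
    (1 + Real.log (1 / δ)) ^ (1 - Pool.Agent.Q184.SF.kap d p) := by
  unfold loss kappa Pool.Agent.Q184.SF.kap
  have h1 : 2 * (d + 1) ^ 2 - 1 = 2 * d * (d + 2) + 1 := by
    have : 2 * (d + 1) ^ 2 = 2 * d * (d + 2) + 2 := by ring
    omega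
  have h2 : (((d + 1 : ℕ) : ℝ)) ^ 2 + (((d + 1 : ℕ) : ℝ) - 1) ^ 2 = 2 * (d : ℝ) ^ 2 + 2 * d + 1 := by
    push_cast
    ring
  have h3 : p + 2 * (((d + 1 : ℕ) : ℝ)) ^ 2 - 1 = p + (2 * d * (d + 2) + 1) := by
    push_cast
    ring
  rw [h1, h2, h3]

/-- **Entropy of the multiplicity function of a Sobolev family of tubes**, and lower bounds for
the sets that meet the tubes in a given mass, and for unions. -/
theorem result (n : ℕ) (hn : 3 ≤ n) : ∃ C : ℝ, 0 < C ∧ ∀ (ι : Type) [Fintype ι]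
    (e a : ι → EuclideanSpace ℝ (Fin n)) (p G δ : ℝ), 0 < p → 0 ≤ G → 0 < δ → δ < 1 →
    (∀ i, ‖e i‖ = 1) → (∀ i j, i ≠ j → δ ≤ ‖e i - e j‖) → Sobolev p G δ e a →
    ∫⁻ y, ENNReal.ofReal (mult δ e a y * Real.posLog (mult δ e a y))
        ≤ ENNReal.ofReal (C * loss n p G δ) ∧
    (∀ (γ : ℝ) (E : Set (EuclideanSpace ℝ (Fin n))), 0 < γ →
      ENNReal.ofReal γ ≤ ∑ i, volume (tube δ (e i) (a i) ∩ E) →
      ENNReal.ofReal (Real.exp (-(C / γ * loss n p G δ))) ≤ volume E) ∧
    ∀ (γ : ℝ) (J : Finset ι), 0 < γ → γ ≤ δ ^ (n - 1) * J.card →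
      ENNReal.ofReal (Real.exp (-(C / γ * loss n p G δ))) ≤
        volume (⋃ i ∈ J, tube δ (e i) (a i)) := by
  classical
  obtain ⟨d, rfl⟩ : ∃ d, n = d + 1 := ⟨n - 1, by omega⟩
  obtain ⟨C1, hC1, h1⟩ := Pool.Agent.Q184.SF.main (d := d) (by omega)
  obtain ⟨C2, hC2, h2⟩ := Pool.Agent.Q184.SF.main_level (d := d) (by omega)
  obtain ⟨c, hc, h3⟩ := Pool.Agent.H742R2.Kk.volume_tube d
  refine ⟨C1 + C2 + C2 / c, by positivity, ?_⟩
  intro ι _ e a p G δ hp hG hδ hδ1 he hsep ⟨g, hg, hw⟩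
  have hlogδ : 0 ≤ Real.log (1 / δ) :=
    Real.log_nonneg (by rw [le_div_iff₀ hδ]; linarith)
  have hloss : 0 ≤ loss (d + 1) p G δ := by
    rw [loss_eq]
    positivity
  have hw' : ∀ l : ℝ, 0 < l → δ ^ d * (Fintype.card {i // l < g i} : ℝ) ≤ (G / l) ^ p := by
    intro l hl
    have := hw l hl
    rwa [Nat.card_eq_fintype_card, Nat.add_sub_cancel] at this
  have hsets : ∀ (γ : ℝ) (E : Set (EuclideanSpace ℝ (Fin (d + 1)))), 0 < γ →
      ENNReal.ofReal γ ≤ ∑ i, volume (tube δ (e i) (a i) ∩ E) →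
      ENNReal.ofReal (Real.exp (-(C2 / γ * loss (d + 1) p G δ))) ≤ volume E := by
    intro γ E hγ hint
    have h4 := h2 ι e a g p G δ hp hG hδ hδ1.le he hsep hg hw' γ E hγ hint
    rw [loss_eq]
    exact h4
  refine ⟨?_, ?_, ?_⟩
  · have h4 := h1 ι e a g p G δ hp hG hδ hδ1.le he hsep hg hw'
    have h5 : ∀ y, mult δ e a y * Real.posLog (mult δ e a y) ≤
        Pool.Agent.W769.Ent.Ph (Pool.Agent.W769.Ent.Nt e a δ y) := by
      intro y
      have h5 : mult δ e a y = Pool.Agent.W769.Ent.Nt e a δ y := rfl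
      rw [h5]
      have h6 := Pool.Agent.W769.Ent.Nt_nonneg e a δ y
      unfold Pool.Agent.W769.Ent.Ph
      nlinarith
    calc ∫⁻ y, ENNReal.ofReal (mult δ e a y * Real.posLog (mult δ e a y))
        ≤ ∫⁻ y, ENNReal.ofReal (Pool.Agent.W769.Ent.Ph (Pool.Agent.W769.Ent.Nt e a δ y)) :=
          lintegral_mono fun y => ENNReal.ofReal_le_ofReal (h5 y)
      _ ≤ _ := h4
      _ ≤ ENNReal.ofReal ((C1 + C2 + C2 / c) * loss (d + 1) p G δ) := by
          apply ENNReal.ofReal_le_ofReal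
          rw [← loss_eq d p G δ]
          have : 0 ≤ C2 / c := by positivity
          nlinarith
  · intro γ E hγ hint
    refine le_trans (ENNReal.ofReal_le_ofReal (Real.exp_le_exp.2 (neg_le_neg ?_)))
      (hsets γ E hγ hint)
    gcongr
    have : 0 ≤ C2 / c := by positivity
    linarith
  · intro γ J hγ hJ
    rw [Nat.add_sub_cancel] at hJ
    have h4 : ENNReal.ofReal (c * γ) ≤
        ∑ i, volume (tube δ (e i) (a i) ∩ ⋃ j ∈ J, tube δ (e j) (a j)) := by
      calc ENNReal.ofReal (c * γ) ≤ ENNReal.ofReal (c * (δ ^ d * J.card)) :=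
            ENNReal.ofReal_le_ofReal (by gcongr)
        _ = ∑ _i ∈ J, ENNReal.ofReal (c * δ ^ d) := by
            rw [Finset.sum_const, nsmul_eq_mul, ← ENNReal.ofReal_natCast,
              ← ENNReal.ofReal_mul (by positivity)]
            congr 1
            ring
        _ ≤ ∑ i ∈ J, volume (tube δ (e i) (a i) ∩ ⋃ j ∈ J, tube δ (e j) (a j)) := by
            refine Finset.sum_le_sum fun i hi => ?_
            have h5 : tube δ (e i) (a i) ∩ ⋃ j ∈ J, tube δ (e j) (a j) = tube δ (e i) (a i) := by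
              rw [inter_eq_left]
              exact subset_biUnion_of_mem (u := fun j => tube δ (e j) (a j)) hi
            rw [h5]
            exact h3 δ (e i) (a i) hδ (he i)
        _ ≤ ∑ i, volume (tube δ (e i) (a i) ∩ ⋃ j ∈ J, tube δ (e j) (a j)) :=
            Finset.sum_le_sum_of_subset (Finset.subset_univ _)
    refine le_trans (ENNReal.ofReal_le_ofReal (Real.exp_le_exp.2 (neg_le_neg ?_)))
      (hsets (c * γ) _ (by positivity) h4)
    have h7 : C2 / (c * γ) ≤ (C1 + C2 + C2 / c) / γ := by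
      have h6 : C2 / (c * γ) = C2 / c / γ := by field_simp
      rw [h6]
      gcongr
      linarith
    exact mul_le_mul_of_nonneg_right h7 hloss

end Pool.Agent.Results.MP_850839_an.SobolevFamilies
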